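import Mathlib
import Pool.Agent.X82.AreaJ

set_option autoImplicit false

/-!
MP_f9aece_nt, every real order `β > 0`: an unconditional equivalence between the asymptotic of the problem and the
asymptotic of a mean number of `a`-points of `ζ` to the right of the critical line.

Let `N T a` be the number of `s` with `1/2 < Re s < 2`, `2 < Im s < T`, `ζ(s) = a`. For every `β > 0` and every
`x, c`: `a(T) / (log T)^(β²/4) → c` holds if and only if
`∫_ℂ |a|^(β-2) N T a dA(a) / (T (log T)^(β²/4+1)) → c / (2β)`.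
The integral over `ℂ` is finite and equal to the area integral of `|ζ|^(β-2) |ζ'|²`.
-/

open Filter Topology MeasureTheory

namespace Pool.Agent.Results.MP_f9aece_nt.APointCount

/-- The rectangle `1/2 < Re s < 2`, `2 < Im s < T`. -/
def Region (T : ℝ) : Set ℂ := {s : ℂ | 1 / 2 < s.re ∧ s.re < 2 ∧ 2 < s.im ∧ s.im < T}

/-- The number of `a`-points of `ζ` in the rectangle. -/
noncomputable def N (T : ℝ) (a : ℂ) : ℕ := Set.ncard {s : ℂ | s ∈ Region T ∧ riemannZeta s = a}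

/-- The mean of the number of `a`-points over the plane with the weight `|a|^(β-2)`. -/
noncomputable def meanN (β T : ℝ) : ℝ := ∫ a : ℂ, ‖a‖ ^ (β - 2) * (N T a : ℝ)

/-- The moment `a(T)` of the problem, of order `β`, with the shift `x`. -/
noncomputable def moment (β x T : ℝ) : ℝ :=
  ∫ u in (0:ℝ)..1, ‖riemannZeta (1 / 2 + x * Complex.I + (u * T) * Complex.I)‖ ^ β

theorem result (β : ℝ) (hβ : 0 < β) :
    (∀ (T : ℝ) (a : ℂ), {s : ℂ | s ∈ Region T ∧ riemannZeta s = a}.Finite) ∧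
    (∀ T : ℝ, Integrable (fun a : ℂ => ‖a‖ ^ (β - 2) * (N T a : ℝ)) ∧
      IntegrableOn (fun s : ℂ => ‖riemannZeta s‖ ^ (β - 2) * ‖deriv riemannZeta s‖ ^ 2) (Region T) ∧
      meanN β T = ∫ s in Region T, ‖riemannZeta s‖ ^ (β - 2) * ‖deriv riemannZeta s‖ ^ 2) ∧
    (∀ x c : ℝ,
      Tendsto (fun T : ℝ => moment β x T / Real.log T ^ (β ^ 2 / 4)) atTop (𝓝 c) ↔
      Tendsto (fun T : ℝ => meanN β T / (T * Real.log T ^ (β ^ 2 / 4 + 1))) atTop (𝓝 (c / (2 * β)))) ∧
    (∀ x : ℝ,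
      (∃ c : ℝ, 0 < c ∧ Tendsto (fun T : ℝ => moment β x T / Real.exp (β ^ 2 / 4 * Real.log (Real.log T)))
        atTop (𝓝 c)) ↔
      ∃ c : ℝ, 0 < c ∧ Tendsto (fun T : ℝ => meanN β T / (T * Real.log T ^ (β ^ 2 / 4 + 1))) atTop (𝓝 c)) := by
  have key : ∀ x c : ℝ,
      Tendsto (fun T : ℝ => moment β x T / Real.log T ^ (β ^ 2 / 4)) atTop (𝓝 c) ↔
      Tendsto (fun T : ℝ => meanN β T / (T * Real.log T ^ (β ^ 2 / 4 + 1))) atTop (𝓝 (c / (2 * β))) :=
    fun x c => Pool.Agent.X82.Area.final hβ x c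
  refine ⟨fun T a => Pool.Agent.X82.Area.finite_pts T a, fun T => ⟨(Pool.Agent.X82.Area.count_int hβ T).1,
    Pool.Agent.X82.Area.den_int hβ T, (Pool.Agent.X82.Area.count_int hβ T).2.symm⟩, key, fun x => ?_⟩
  have hexp : ∀ c : ℝ, Tendsto (fun T : ℝ => moment β x T / Real.exp (β ^ 2 / 4 * Real.log (Real.log T)))
        atTop (𝓝 c) ↔ Tendsto (fun T : ℝ => moment β x T / Real.log T ^ (β ^ 2 / 4)) atTop (𝓝 c) := by
    intro c
    refine tendsto_congr' ?_
    filter_upwards [eventually_gt_atTop 1] with T hT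
    rw [Real.rpow_def_of_pos (Real.log_pos hT), mul_comm (Real.log (Real.log T))]
  constructor
  · rintro ⟨c, hc, h⟩
    exact ⟨c / (2 * β), by positivity, (key x c).1 ((hexp c).1 h)⟩
  · rintro ⟨c, hc, h⟩
    refine ⟨2 * β * c, by positivity, (hexp _).2 ((key x _).2 ?_)⟩
    rwa [show 2 * β * c / (2 * β) = c by field_simp]

end Pool.Agent.Results.MP_f9aece_nt.APointCount
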