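import Pool.Agent.X110.NA6
import Pool.Agent.X110.NB5
import Pool.Agent.Y753.SHR.Star
import Pool.Agent.Y901.SHR.Diag
import Pool.Agent.H305R2.MertensE
import Pool.Agent.H306R2.EPLim

set_option autoImplicit false

/-!
MP_f9aece_nt. The moments of zeta times partial Euler products near the critical line, and the
splitting of the moments into the moments of the partial Euler products and of the quotient (the conjecture of
Gonek, Hughes and Keating, near the line), with the asymptotic values of both factors.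
-/

open Filter Topology MeasureTheory

namespace Pool.Agent.Results.MP_f9aece_nt.HybridSplitting

/-- the value `d_κ(p^j) = κ (κ + 1) ... (κ + j - 1) / j!` of the generalised divisor function at a power of a prime -/
noncomputable def dp (κ : ℝ) (j : ℕ) : ℝ := ∏ i ∈ Finset.range j, (κ + i) / ((i : ℝ) + 1)

/-- `c_p(κ) = ∑ d_κ(p^j)² p^(-j)`, the mean of `|1 - p^(-1/2 - it)|^(-2κ)` -/
noncomputable def cp (κ : ℝ) (p : ℕ) : ℝ := ∑' j : ℕ, dp κ j ^ 2 / (p : ℝ) ^ j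

/-- the arithmetic factor `a(s)` of the moment of order `2 s` -/
noncomputable def ak (s : ℝ) : ℝ :=
  ∏' p : Nat.Primes, ((1 - 1 / (p : ℝ)) ^ (s ^ 2) * cp s p)

/-- the partial Euler product over the primes up to `X` -/
noncomputable def PX (X : ℕ) (z : ℂ) : ℂ := ∏ p ∈ (Finset.range (X + 1)).filter Nat.Prime, (1 - (p : ℂ) ^ (-z))⁻¹

/-- the set `D(T)` of the integration: `[0, T]` without `E(T)`, for the orders `2 s` with `s ≤ 2` or `s ≥ 2 + 2c`, or
the whole of `[0, T]` for `s ≤ 2` -/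
def Admissible (E : ℝ → Set ℝ) (c s : ℝ) (D : ℝ → Set ℝ) : Prop :=
  ((s ≤ 2 ∨ 2 + 2 * c ≤ s) ∧ ∀ T, D T = Set.Icc 0 T \ E T) ∨ (s ≤ 2 ∧ ∀ T, D T = Set.Icc 0 T)

open Pool.Agent.X110.NA in
lemma dp_eq (κ : ℝ) (j : ℕ) : dp κ j = Pool.Agent.H306R2.lc κ j := rfl

lemma cp_eq (κ : ℝ) {p : ℕ} (hp : p.Prime) : cp κ p = Pool.Agent.X110.NA.Lf κ 0 p 0 0 := by
  unfold cp Pool.Agent.X110.NA.Lf
  refine tsum_congr fun j => ?_
  have hp0 : (0:ℝ) < p := by exact_mod_cast hp.pos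
  have e1 : Pool.Agent.Y755.rp 0 p ^ 2 = (p:ℝ)⁻¹ := by
    unfold Pool.Agent.Y755.rp
    rw [← Real.rpow_natCast, ← Real.rpow_mul hp0.le]
    norm_num
    rw [Real.rpow_neg_one]
  rw [dp_eq, zero_add, e1, inv_pow, div_eq_mul_inv, sq]

lemma cp_pos {κ : ℝ} (hκ : 0 ≤ κ) {p : ℕ} (hp : p.Prime) : 0 < cp κ p := by
  rw [cp_eq κ hp]
  rcases hκ.eq_or_lt with h | h
  · rw [← h, Pool.Agent.X110.NA.Lf_zero_one]; exact one_pos
  · exact Pool.Agent.X110.NA.Lf_pos h le_rfl hp 0 0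

lemma ak_eq (s : ℝ) : ak s = Pool.Agent.H306R2.aF s := by
  unfold ak Pool.Agent.H306R2.aF cp
  refine tprod_congr fun p => ?_
  simp_rw [dp_eq, one_div, inv_pow, div_eq_mul_inv]

lemma PX_norm (X : ℕ) (z : ℂ) (r : ℝ) : ‖PX X z‖ ^ r = ∏ p ∈ (Finset.range (X + 1)).filter Nat.Prime, ‖1 - (p : ℂ) ^ (-z)‖ ^ (-r) := by
  unfold PX
  rw [norm_prod, ← Real.finsetProd_rpow _ _ fun p _ => norm_nonneg _]
  refine Finset.prod_congr rfl fun p _ => ?_
  rw [norm_inv, Real.inv_rpow (norm_nonneg _), Real.rpow_neg (norm_nonneg _)]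

/-- a prime up to `X` as a prime -/
def toP (X : ℕ) (q : {x // x ∈ (Finset.range (X + 1)).filter Nat.Prime}) : Nat.Primes :=
  ⟨q.1, (Finset.mem_filter.mp q.2).2⟩

/-- the primes up to `X`, as a finite set of primes -/
noncomputable def pset (X : ℕ) : Finset Nat.Primes :=
  ((Finset.range (X + 1)).filter Nat.Prime).attach.image (toP X)

lemma mem_pset (X : ℕ) (p : Nat.Primes) : p ∈ pset X ↔ (p : ℕ) ≤ X := by
  unfold pset
  rw [Finset.mem_image]
  constructor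
  · rintro ⟨q, -, rfl⟩
    have := Finset.mem_range.mp (Finset.mem_filter.mp q.2).1
    show q.1 ≤ X
    omega
  · intro h
    exact ⟨⟨p.1, Finset.mem_filter.mpr ⟨Finset.mem_range.mpr (by omega), p.2⟩⟩, Finset.mem_attach _ _, rfl⟩

lemma pset_tendsto : Tendsto pset atTop atTop := by
  rw [tendsto_atTop]
  intro S
  filter_upwards [eventually_ge_atTop (S.sup fun p => (p : ℕ))] with X hX
  intro p hp
  rw [mem_pset]
  exact (Finset.le_sup (f := fun p : Nat.Primes => (p : ℕ)) hp).trans hX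

lemma pset_prod (X : ℕ) (f : ℕ → ℝ) : ∏ p ∈ pset X, f p = ∏ p ∈ (Finset.range (X + 1)).filter Nat.Prime, f p := by
  refine Finset.prod_bij (fun p _ => (p : ℕ)) (fun p hp => ?_) (fun p _ q _ h => Subtype.ext h) (fun q hq => ?_) fun p _ => rfl
  · rw [mem_pset] at hp
    exact Finset.mem_filter.mpr ⟨Finset.mem_range.mpr (by omega), p.2⟩
  · rw [Finset.mem_filter, Finset.mem_range] at hq
    exact ⟨⟨q, hq.2⟩, (mem_pset X _).mpr (by show q ≤ X; omega), rfl⟩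

/-- the product of the means over the primes up to `X` -/
lemma C_asym {s : ℝ} (hs : 0 < s) :
    Tendsto (fun X : ℕ => (∏ p ∈ (Finset.range (X + 1)).filter Nat.Prime, cp s p) /
      (ak s * (Real.exp Real.eulerMascheroniConstant * Real.log X) ^ (s ^ 2))) atTop (𝓝 1) := by
  have h1 : HasProd (fun p : Nat.Primes => (1 - 1 / (p : ℝ)) ^ (s ^ 2) * cp s p) (ak s) := by
    have h := (Pool.Agent.H306R2.aF_multipliable hs).hasProd
    have e : (fun p : Nat.Primes => (1 - 1 / (p : ℝ)) ^ (s ^ 2) * ∑' m : ℕ, Pool.Agent.H306R2.lc s m ^ 2 * (1 / (p : ℝ)) ^ m) =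
        fun p : Nat.Primes => (1 - 1 / (p : ℝ)) ^ (s ^ 2) * cp s p := by
      funext p
      unfold cp
      simp_rw [dp_eq, one_div, inv_pow, div_eq_mul_inv]
    rw [e] at h
    exact h
  have h2 : Tendsto (fun X : ℕ => ∏ p ∈ (Finset.range (X + 1)).filter Nat.Prime, ((1 - 1 / (p : ℝ)) ^ (s ^ 2) * cp s p)) atTop (𝓝 (ak s)) := by
    refine (h1.comp pset_tendsto).congr fun X => ?_
    exact pset_prod X fun p => (1 - 1 / (p : ℝ)) ^ (s ^ 2) * cp s p
  have h3 : Tendsto (fun X : ℕ => (∏ p ∈ (Finset.range (X + 1)).filter Nat.Prime, (1 - (p : ℝ)⁻¹)⁻¹) /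
      (Real.exp Real.eulerMascheroniConstant * Real.log X)) atTop (𝓝 1) := by
    have h := Pool.Agent.H305R2.mertens_three.div_const (Real.exp Real.eulerMascheroniConstant)
    rw [div_self (Real.exp_pos _).ne'] at h
    refine h.congr fun X => ?_
    have e : (Finset.Icc 1 X).filter Nat.Prime = (Finset.range (X + 1)).filter Nat.Prime := by
      ext p
      rw [Finset.mem_filter, Finset.mem_filter, Finset.mem_Icc, Finset.mem_range]
      constructor
      · rintro ⟨h1, h2⟩; exact ⟨by omega, h2⟩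
      · rintro ⟨h1, h2⟩; exact ⟨⟨h2.one_lt.le, by omega⟩, h2⟩
    rw [e, div_div, mul_comm (Real.log (X : ℝ))]
  have hak : 0 < ak s := by rw [ak_eq]; exact Pool.Agent.H306R2.aF_pos hs
  have h4 := (h2.div_const (ak s)).mul (h3.rpow_const (p := s ^ 2) (Or.inl one_ne_zero))
  rw [div_self hak.ne', Real.one_rpow, mul_one] at h4
  refine h4.congr' ?_
  filter_upwards [eventually_ge_atTop 2] with X hX
  have hlog : 0 < Real.log X := Real.log_pos (by exact_mod_cast hX)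
  have hpp : ∀ p ∈ (Finset.range (X + 1)).filter Nat.Prime, (0:ℝ) < 1 - (p : ℝ)⁻¹ := by
    intro p hp
    have h5 : (1:ℝ) < p := by exact_mod_cast (Finset.mem_filter.mp hp).2.one_lt
    have h6 : (p : ℝ)⁻¹ < 1 := inv_lt_one_of_one_lt₀ h5
    linarith
  have hM : 0 < ∏ p ∈ (Finset.range (X + 1)).filter Nat.Prime, (1 - (p : ℝ)⁻¹)⁻¹ :=
    Finset.prod_pos fun p hp => inv_pos.mpr (hpp p hp)
  rw [Real.div_rpow hM.le (by positivity), ← Real.finsetProd_rpow _ _ fun p hp => (inv_pos.mpr (hpp p hp)).le]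
  have e6 : (∏ p ∈ (Finset.range (X + 1)).filter Nat.Prime, ((1 - 1 / (p : ℝ)) ^ (s ^ 2) * cp s p)) *
      (∏ p ∈ (Finset.range (X + 1)).filter Nat.Prime, ((1 - (p : ℝ)⁻¹)⁻¹) ^ (s ^ 2)) =
      ∏ p ∈ (Finset.range (X + 1)).filter Nat.Prime, cp s p := by
    rw [← Finset.prod_mul_distrib]
    refine Finset.prod_congr rfl fun p hp => ?_
    have h7 : 0 < (1 - (p : ℝ)⁻¹) ^ (s ^ 2) := Real.rpow_pos_of_pos (hpp p hp) _
    rw [one_div, Real.inv_rpow (hpp p hp).le, mul_assoc, mul_comm (cp s p), ← mul_assoc, mul_inv_cancel₀ h7.ne', one_mul]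
  rw [div_mul_div_comm, e6]

section core

open Pool.Agent.X110.NA

/-- the hypotheses on the means -/
structure Mean (s : ℝ) (Z : ℝ → ℝ → ℝ) (D : ℝ → Set ℝ) (c : ℝ → ℝ) : Prop where
  hc : ∀ᶠ T in atTop, 0 ≤ c T
  hZ0 : ∀ T t, 0 ≤ Z T t
  hZi : ∀ᶠ T in atTop, IntegrableOn (Z T) (D T)
  htw : ∀ a b : ℕ, a ≠ 0 → b ≠ 0 → a.Coprime b → Tendsto (fun T => (c T : ℂ) * ∫ t in D T, ((Z T t : ℝ) : ℂ) *
      Complex.exp (((t * Real.log (a / b) : ℝ) : ℂ) * Complex.I)) atTop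
      (𝓝 ((((a:ℝ) * b) ^ (-(1 / 2 : ℝ)) * (Pool.Agent.H306R2.aF s * ∏ q ∈ (a * b).primeFactors,
            (Lf s 0 q (a.factorization q) (b.factorization q) / Lf s 0 q 0 0)) : ℝ) : ℂ))

variable {s : ℝ} {Z : ℝ → ℝ → ℝ} {D : ℝ → Set ℝ} {c : ℝ → ℝ}

lemma moment_fin (hs : 0 < s) {κ : ℝ} (hκ : 0 ≤ κ) (H : Mean s Z D c) {δ : ℝ → ℝ} (hδ : Tendsto δ atTop (𝓝 0))
    (hpos : ∀ᶠ T in atTop, 0 < δ T) (X : ℕ) :
    Tendsto (fun T => c T * ∫ t in D T, Z T t * ‖PX X (1 / 2 + δ T + Complex.I * (t : ℂ))‖ ^ (2 * (κ - s))) atTop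
      (𝓝 (ak s * ∏ p ∈ (Finset.range (X + 1)).filter Nat.Prime, (cp κ p / cp s p))) := by
  obtain ⟨S, hS⟩ : ∃ S : Finset ℕ, S = (Finset.range (X + 1)).filter Nat.Prime := ⟨_, rfl⟩
  have hSp : ∀ q ∈ S, q.Prime := fun q hq => by rw [hS, Finset.mem_filter] at hq; exact hq.2
  obtain ⟨p, hpd⟩ : ∃ p : Fin S.card → ℕ, ∀ j, p j = (S.equivFin.symm j : ℕ) := ⟨_, fun _ => rfl⟩
  have hp : ∀ j, (p j).Prime := fun j => by rw [hpd]; exact hSp _ (S.equivFin.symm j).2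
  have hinj : Function.Injective p := by
    intro i j hij
    rw [hpd, hpd] at hij
    exact S.equivFin.symm.injective (Subtype.ext hij)
  have hprod : ∀ f : ℕ → ℝ, ∏ j, f (p j) = ∏ q ∈ S, f q := by
    intro f
    rw [← Finset.prod_coe_sort S f]
    refine Fintype.prod_equiv S.equivFin.symm _ _ fun j => ?_
    rw [hpd]
  have h := euler_moment hs (Pool.Agent.H306R2.aF_pos hs).le hκ p hp hinj hδ hpos Z D c H.hc H.hZ0 H.hZi H.htw
  have e1 : ∀ T t : ℝ, ∏ j, ‖1 - ((p j : ℕ) : ℂ) ^ (-(1 / 2 + δ T + Complex.I * t))‖ ^ (2 * (s - κ)) =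
      ‖PX X (1 / 2 + δ T + Complex.I * (t : ℂ))‖ ^ (2 * (κ - s)) := by
    intro T t
    rw [PX_norm, ← hS, hprod fun q => ‖1 - (q : ℂ) ^ (-(1 / 2 + δ T + Complex.I * t))‖ ^ (2 * (s - κ))]
    refine Finset.prod_congr rfl fun q _ => ?_
    congr 1; ring
  simp_rw [e1] at h
  have e2 : Pool.Agent.H306R2.aF s * ∏ j, (Lf κ 0 (p j) 0 0 / Lf s 0 (p j) 0 0) =
      ak s * ∏ q ∈ (Finset.range (X + 1)).filter Nat.Prime, (cp κ q / cp s q) := by
    rw [ak_eq, ← hS, ← hprod fun q => cp κ q / cp s q]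
    congr 1
    refine Finset.prod_congr rfl fun j _ => ?_
    rw [cp_eq κ (hp j), cp_eq s (hp j)]
  rw [e2] at h
  refine ((Complex.continuous_re.tendsto _).comp h).congr fun T => ?_
  simp only [Function.comp_apply]
  have e3 : ∀ t : ℝ, ((Z T t : ℝ) : ℂ) * ((‖PX X (1 / 2 + δ T + Complex.I * (t : ℂ))‖ ^ (2 * (κ - s)) : ℝ) : ℂ) =
      ((Z T t * ‖PX X (1 / 2 + δ T + Complex.I * (t : ℂ))‖ ^ (2 * (κ - s)) : ℝ) : ℂ) := fun t => by push_cast; rfl
  simp_rw [e3]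
  rw [integral_complex_ofReal, ← Complex.ofReal_mul, Complex.ofReal_re]

lemma mean_fin {κ : ℝ} (hκ : 0 ≤ κ) {δ : ℝ → ℝ} (hδ : Tendsto δ atTop (𝓝 0))
    (hpos : ∀ᶠ T in atTop, 0 < δ T) (X : ℕ) :
    Tendsto (fun T : ℝ => 1 / T * ∫ t in Set.Icc 0 T, ‖PX X (1 / 2 + δ T + Complex.I * (t : ℂ))‖ ^ (2 * κ)) atTop
      (𝓝 (∏ p ∈ (Finset.range (X + 1)).filter Nat.Prime, cp κ p)) := by
  obtain ⟨S, hS⟩ : ∃ S : Finset ℕ, S = (Finset.range (X + 1)).filter Nat.Prime := ⟨_, rfl⟩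
  have hSp : ∀ q ∈ S, q.Prime := fun q hq => by rw [hS, Finset.mem_filter] at hq; exact hq.2
  obtain ⟨p, hpd⟩ : ∃ p : Fin S.card → ℕ, ∀ j, p j = (S.equivFin.symm j : ℕ) := ⟨_, fun _ => rfl⟩
  have hp : ∀ j, (p j).Prime := fun j => by rw [hpd]; exact hSp _ (S.equivFin.symm j).2
  have hinj : Function.Injective p := by
    intro i j hij
    rw [hpd, hpd] at hij
    exact S.equivFin.symm.injective (Subtype.ext hij)
  have hprod : ∀ f : ℕ → ℝ, ∏ j, f (p j) = ∏ q ∈ S, f q := by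
    intro f
    rw [← Finset.prod_coe_sort S f]
    refine Fintype.prod_equiv S.equivFin.symm _ _ fun j => ?_
    rw [hpd]
  have h := euler_mean hκ p hp hinj hδ hpos
  have e1 : ∀ T t : ℝ, ∏ j, ‖1 - ((p j : ℕ) : ℂ) ^ (-(1 / 2 + δ T + Complex.I * t))‖ ^ (-(2 * κ)) =
      ‖PX X (1 / 2 + δ T + Complex.I * (t : ℂ))‖ ^ (2 * κ) := by
    intro T t
    rw [PX_norm, ← hS, hprod fun q => ‖1 - (q : ℂ) ^ (-(1 / 2 + δ T + Complex.I * t))‖ ^ (-(2 * κ))]
  simp_rw [e1] at h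
  have e2 : ∏ j, Lf κ 0 (p j) 0 0 = ∏ q ∈ (Finset.range (X + 1)).filter Nat.Prime, cp κ q := by
    rw [← hS, ← hprod fun q => cp κ q]
    refine Finset.prod_congr rfl fun j _ => ?_
    rw [cp_eq κ (hp j)]
  rw [e2] at h
  refine ((Complex.continuous_re.tendsto _).comp h).congr fun T => ?_
  simp only [Function.comp_apply]
  rw [integral_complex_ofReal, ← Complex.ofReal_mul, Complex.ofReal_re]

end core

/-- **The moments of zeta with partial Euler products, and the splitting of the moments.** -/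
theorem result
    (δ : ℝ → ℝ) (hδ : Tendsto δ atTop (𝓝 0)) (hδL : Tendsto (fun T : ℝ => δ T * Real.log T) atTop atTop)
    (c : ℝ) (hc : 0 ≤ c) (R : Set ℝ) (hR : R.Countable) (hR0 : ∀ r ∈ R, 0 < r) :
    ∃ E : ℝ → Set ℝ, (∀ T, MeasurableSet (E T) ∧ ∀ t ∈ E T, 0 ≤ t ∧ t ≤ T ∧
        (δ T) ^ (-(2 + c)) < ‖riemannZeta (1 / 2 + δ T + Complex.I * (t : ℂ))‖) ∧
      Tendsto (fun T => (volume (E T)).toReal / (T * (δ T) ^ (4 + 4 * c))) atTop (𝓝 0) ∧
      ∀ s ∈ R, ∀ D : ℝ → Set ℝ, Admissible E c s D →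
        -- the moments of zeta and of the partial Euler products
        (∀ (X : ℕ) (κ : ℝ), 0 ≤ κ → Tendsto (fun T : ℝ => (2 * δ T) ^ (s ^ 2) / T *
            ∫ t in D T, ‖riemannZeta (1 / 2 + δ T + Complex.I * (t : ℂ))‖ ^ (2 * s) *
              ‖PX X (1 / 2 + δ T + Complex.I * (t : ℂ))‖ ^ (2 * (κ - s))) atTop
            (𝓝 (ak s * ∏ p ∈ (Finset.range (X + 1)).filter Nat.Prime, (cp κ p / cp s p)))) ∧
        -- the splitting, and the asymptotic values of the two factors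
        ∃ Y : ℝ → ℕ, Tendsto Y atTop atTop ∧ ∀ X : ℝ → ℕ, (∀ᶠ T in atTop, X T ≤ Y T) →
          Tendsto (fun T : ℝ => (1 / T * ∫ t in D T, ‖riemannZeta (1 / 2 + δ T + Complex.I * (t : ℂ))‖ ^ (2 * s)) /
            ((1 / T * ∫ t in Set.Icc 0 T, ‖PX (X T) (1 / 2 + δ T + Complex.I * (t : ℂ))‖ ^ (2 * s)) *
             (1 / T * ∫ t in D T, ‖riemannZeta (1 / 2 + δ T + Complex.I * (t : ℂ)) /
                PX (X T) (1 / 2 + δ T + Complex.I * (t : ℂ))‖ ^ (2 * s)))) atTop (𝓝 1) ∧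
          (Tendsto X atTop atTop →
            Tendsto (fun T : ℝ => (1 / T * ∫ t in Set.Icc 0 T, ‖PX (X T) (1 / 2 + δ T + Complex.I * (t : ℂ))‖ ^ (2 * s)) /
              (ak s * (Real.exp Real.eulerMascheroniConstant * Real.log (X T)) ^ (s ^ 2))) atTop (𝓝 1) ∧
            Tendsto (fun T : ℝ => (1 / T * ∫ t in D T, ‖riemannZeta (1 / 2 + δ T + Complex.I * (t : ℂ)) /
                PX (X T) (1 / 2 + δ T + Complex.I * (t : ℂ))‖ ^ (2 * s)) *
              (2 * δ T * (Real.exp Real.eulerMascheroniConstant * Real.log (X T))) ^ (s ^ 2)) atTop (𝓝 1)) := by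
  obtain ⟨E, hE, hvol, hm⟩ := Pool.Agent.X110.NA.twist_small Pool.Agent.Y901.SHR.done
    Pool.Agent.Y753.SHR.star hδ hδL hc hR hR0
  have e4 : ∀ (T t : ℝ), (1 / 2 + δ T + (t : ℂ) * Complex.I : ℂ) = 1 / 2 + δ T + Complex.I * (t : ℂ) := fun T t => by ring
  have hpos : ∀ᶠ T in atTop, 0 < δ T := by
    filter_upwards [hδL.eventually_gt_atTop 0, eventually_gt_atTop 1] with T hT hT1
    exact (pos_iff_pos_of_mul_pos hT).mpr (Real.log_pos hT1)
  have hlt : ∀ᶠ T in atTop, δ T < 1 / 2 := hδ.eventually (gt_mem_nhds (by norm_num))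
  refine ⟨E, fun T => ⟨(hE T).1, fun t ht => ⟨((hE T).2.1 ht).1, ((hE T).2.1 ht).2, ?_⟩⟩, hvol, ?_⟩
  · have h1 := (hE T).2.2 t ht
    rwa [e4] at h1
  intro s hs D hD
  have hs0 := hR0 s hs
  obtain ⟨Z, hZ⟩ : ∃ Z : ℝ → ℝ → ℝ, ∀ T t, Z T t = ‖riemannZeta (1 / 2 + δ T + Complex.I * (t : ℂ))‖ ^ (2 * s) := ⟨_, fun _ _ => rfl⟩
  have hDs : ∀ T, D T ⊆ Set.Icc 0 T := by
    intro T
    rcases hD with h | h
    · rw [h.2 T]; exact Set.sdiff_subset
    · rw [h.2 T]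
  have H : Mean s Z D fun T => (2 * δ T) ^ (s ^ 2) / T := by
    refine ⟨?_, fun T t => ?_, ?_, ?_⟩
    · filter_upwards [hpos, eventually_gt_atTop 0] with T h1 h2
      positivity
    · rw [hZ]; positivity
    · filter_upwards [hlt] with T hT
      have h1 : Continuous fun t : ℝ => riemannZeta (1 / 2 + δ T + t * Complex.I) := Pool.Agent.Y753.NL.zl_cont hT
      have h2 : Z T = fun t : ℝ => ‖riemannZeta (1 / 2 + δ T + t * Complex.I)‖ ^ (2 * s) := by
        funext t; rw [hZ, e4]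
      rw [h2]
      exact ((h1.norm.rpow_const fun t => Or.inr (by positivity)).continuousOn.integrableOn_compact isCompact_Icc).mono_set (hDs T)
    · intro a b ha hb hab
      obtain ⟨h1, h2⟩ := hm s hs a b ha hb hab
      simp_rw [Complex.real_smul, e4, ← hZ] at h1 h2
      rcases hD with h | h
      · simp_rw [h.2]
        exact h1 (by
          rcases h.1 with h3 | h3
          · left; exact h3
          · right; linarith)
      · simp_rw [h.2]
        exact h2 h.1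
  have hsecond : ∀ (X : ℕ) (κ : ℝ), 0 ≤ κ → Tendsto (fun T : ℝ => (2 * δ T) ^ (s ^ 2) / T *
            ∫ t in D T, ‖riemannZeta (1 / 2 + δ T + Complex.I * (t : ℂ))‖ ^ (2 * s) *
              ‖PX X (1 / 2 + δ T + Complex.I * (t : ℂ))‖ ^ (2 * (κ - s))) atTop
            (𝓝 (ak s * ∏ p ∈ (Finset.range (X + 1)).filter Nat.Prime, (cp κ p / cp s p))) := by
    intro X κ hκ
    have h := moment_fin hs0 hκ H hδ hpos X
    simp_rw [hZ] at h
    exact h
  refine ⟨hsecond, ?_⟩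
  · obtain ⟨C, hC⟩ : ∃ C : ℕ → ℝ, ∀ X, C X = ∏ p ∈ (Finset.range (X + 1)).filter Nat.Prime, cp s p := ⟨_, fun _ => rfl⟩
    obtain ⟨A, hA⟩ : ∃ A : ℝ → ℝ, ∀ T, A T = 1 / T * ∫ t in D T, ‖riemannZeta (1 / 2 + δ T + Complex.I * (t : ℂ))‖ ^ (2 * s) :=
      ⟨_, fun _ => rfl⟩
    obtain ⟨M, hM⟩ : ∃ M : ℕ → ℝ → ℝ, ∀ X T, M X T = 1 / T * ∫ t in Set.Icc 0 T, ‖PX X (1 / 2 + δ T + Complex.I * (t : ℂ))‖ ^ (2 * s) :=
      ⟨_, fun _ _ => rfl⟩
    obtain ⟨Q, hQ⟩ : ∃ Q : ℕ → ℝ → ℝ, ∀ X T, Q X T = 1 / T * ∫ t in D T, ‖riemannZeta (1 / 2 + δ T + Complex.I * (t : ℂ)) /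
                PX X (1 / 2 + δ T + Complex.I * (t : ℂ))‖ ^ (2 * s) := ⟨_, fun _ _ => rfl⟩
    simp_rw [← hA, ← hM, ← hQ]
    have hcs : ∀ X, ∀ p ∈ (Finset.range (X + 1)).filter Nat.Prime, 0 < cp s p :=
      fun X p hp => cp_pos hs0.le (Finset.mem_filter.mp hp).2
    have hCpos : ∀ X, 0 < C X := fun X => by rw [hC]; exact Finset.prod_pos (hcs X)
    have hak : 0 < ak s := by rw [ak_eq]; exact Pool.Agent.H306R2.aF_pos hs0
    have hAlim : Tendsto (fun T => (2 * δ T) ^ (s ^ 2) * A T / ak s) atTop (𝓝 1) := by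
      have h1 := hsecond 0 s hs0.le
      have hc1 : ∏ p ∈ (Finset.range (0 + 1)).filter Nat.Prime, (cp s p / cp s p) = 1 :=
        Finset.prod_eq_one fun p hp => div_self (hcs 0 p hp).ne'
      rw [hc1, mul_one] at h1
      have h2 := h1.div_const (ak s)
      rw [div_self hak.ne'] at h2
      refine h2.congr fun T => ?_
      have e6 : ∀ t : ℝ, ‖riemannZeta (1 / 2 + δ T + Complex.I * (t : ℂ))‖ ^ (2 * s) *
              ‖PX 0 (1 / 2 + δ T + Complex.I * (t : ℂ))‖ ^ (2 * (s - s)) = ‖riemannZeta (1 / 2 + δ T + Complex.I * (t : ℂ))‖ ^ (2 * s) := by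
        intro t; simp
      simp_rw [e6]
      rw [hA]
      ring
    have hMlim : ∀ X, Tendsto (fun T => M X T / C X) atTop (𝓝 1) := by
      intro X
      have h := (mean_fin hs0.le hδ hpos X).div_const (C X)
      rw [← hC, div_self (hCpos X).ne'] at h
      simp_rw [← hM] at h
      exact h
    have hQlim : ∀ X, Tendsto (fun T => (2 * δ T) ^ (s ^ 2) * Q X T * C X / ak s) atTop (𝓝 1) := by
      intro X
      have h2 := hsecond X 0 le_rfl
      have hc0 : ∏ p ∈ (Finset.range (X + 1)).filter Nat.Prime, (cp 0 p / cp s p) = (C X)⁻¹ := by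
        rw [hC, ← Finset.prod_inv_distrib]
        refine Finset.prod_congr rfl fun p hp => ?_
        rw [cp_eq 0 (Finset.mem_filter.mp hp).2, Pool.Agent.X110.NA.Lf_zero_one, one_div]
      rw [hc0] at h2
      have h3 := (h2.mul_const (C X)).div_const (ak s)
      have e5 : ak s * (C X)⁻¹ * C X / ak s = 1 := by
        have := (hCpos X).ne'
        field_simp
      rw [e5] at h3
      refine h3.congr fun T => ?_
      have e7 : ∀ t : ℝ, ‖riemannZeta (1 / 2 + δ T + Complex.I * (t : ℂ))‖ ^ (2 * s) *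
              ‖PX X (1 / 2 + δ T + Complex.I * (t : ℂ))‖ ^ (2 * (0 - s)) =
              ‖riemannZeta (1 / 2 + δ T + Complex.I * (t : ℂ)) / PX X (1 / 2 + δ T + Complex.I * (t : ℂ))‖ ^ (2 * s) := by
        intro t
        rw [norm_div, Real.div_rpow (norm_nonneg _) (norm_nonneg _), show 2 * (0 - s) = -(2 * s) by ring,
          Real.rpow_neg (norm_nonneg _)]
        exact (div_eq_mul_inv _ _).symm
      simp_rw [e7]
      rw [hQ]
      ring
    have hev : ∀ n : ℕ, ∀ᶠ T in atTop, ∃ _ : Unit, ∀ X ≤ n, |M X T / C X - 1| ≤ 1 / ((n : ℝ) + 1) ∧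
        |(2 * δ T) ^ (s ^ 2) * Q X T * C X / ak s - 1| ≤ 1 / ((n : ℝ) + 1) := by
      intro n
      have h1 : ∀ X : ℕ, ∀ᶠ T in atTop, |M X T / C X - 1| ≤ 1 / ((n : ℝ) + 1) ∧
          |(2 * δ T) ^ (s ^ 2) * Q X T * C X / ak s - 1| ≤ 1 / ((n : ℝ) + 1) := by
        intro X
        have h2 := (Metric.tendsto_nhds.mp (hMlim X)) (1 / ((n : ℝ) + 1)) (by positivity)
        have h3 := (Metric.tendsto_nhds.mp (hQlim X)) (1 / ((n : ℝ) + 1)) (by positivity)
        filter_upwards [h2, h3] with T hT hT'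
        rw [Real.dist_eq] at hT hT'
        exact ⟨hT.le, hT'.le⟩
      have h2 : ∀ᶠ T in atTop, ∀ X ∈ Finset.range (n + 1), |M X T / C X - 1| ≤ 1 / ((n : ℝ) + 1) ∧
          |(2 * δ T) ^ (s ^ 2) * Q X T * C X / ak s - 1| ≤ 1 / ((n : ℝ) + 1) :=
        (Filter.eventually_all_finset _).mpr fun X _ => h1 X
      filter_upwards [h2] with T hT
      exact ⟨(), fun X hX => hT X (Finset.mem_range.mpr (by omega))⟩
    obtain ⟨_, Y, hY, hYT⟩ := Pool.Agent.Y755.diag (P := fun n T (_ : Unit) => ∀ X ≤ n, |M X T / C X - 1| ≤ 1 / ((n : ℝ) + 1) ∧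
        |(2 * δ T) ^ (s ^ 2) * Q X T * C X / ak s - 1| ≤ 1 / ((n : ℝ) + 1)) hev
    refine ⟨Y, hY, fun X hX => ?_⟩
    have h2 : Tendsto (fun T => M (X T) T / C (X T)) atTop (𝓝 1) := by
      rw [tendsto_iff_norm_sub_tendsto_zero]
      refine squeeze_zero' (Eventually.of_forall fun T => norm_nonneg _) ?_ (Pool.Agent.Y753.NL.inv_N (N := Y) hY)
      filter_upwards [hYT, hX] with T h1 h2
      rw [Real.norm_eq_abs]
      exact (h1 _ h2).1
    have h3 : Tendsto (fun T => (2 * δ T) ^ (s ^ 2) * Q (X T) T * C (X T) / ak s) atTop (𝓝 1) := by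
      rw [tendsto_iff_norm_sub_tendsto_zero]
      refine squeeze_zero' (Eventually.of_forall fun T => norm_nonneg _) ?_ (Pool.Agent.Y753.NL.inv_N (N := Y) hY)
      filter_upwards [hYT, hX] with T h1 h2
      rw [Real.norm_eq_abs]
      exact (h1 _ h2).2
    refine ⟨?_, fun hXT => ⟨?_, ?_⟩⟩
    · have h4 := hAlim.div (h2.mul h3) (by norm_num)
      rw [mul_one, div_one] at h4
      refine h4.congr' ?_
      filter_upwards [hpos] with T t1
      have h5 : (2 * δ T) ^ (s ^ 2) ≠ 0 := (Real.rpow_pos_of_pos (by positivity) _).ne'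
      have h6 := (hCpos (X T)).ne'
      simp only [Pi.div_apply]
      field_simp
    · have h4 := h2.mul ((C_asym hs0).comp hXT)
      rw [mul_one] at h4
      refine h4.congr fun T => ?_
      simp only [Function.comp_apply]
      rw [← hC]
      have h6 := (hCpos (X T)).ne'
      rw [div_mul_div_comm, mul_comm (C (X T)), mul_div_mul_right _ _ h6]
    · have h4 := h3.div ((C_asym hs0).comp hXT) one_ne_zero
      rw [div_one] at h4
      refine h4.congr' ?_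
      filter_upwards [hpos, hXT.eventually_ge_atTop 2] with T t1 t2
      have hlog : 0 < Real.log (X T) := Real.log_pos (by exact_mod_cast t2)
      have h6 := (hCpos (X T)).ne'
      have h7 : (Real.exp Real.eulerMascheroniConstant * Real.log (X T)) ^ (s ^ 2) ≠ 0 :=
        (Real.rpow_pos_of_pos (by positivity) _).ne'
      simp only [Pi.div_apply, Function.comp_apply]
      have e8 : (2 * δ T * (Real.exp Real.eulerMascheroniConstant * Real.log (X T))) ^ (s ^ 2) =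
          (2 * δ T) ^ (s ^ 2) * (Real.exp Real.eulerMascheroniConstant * Real.log (X T)) ^ (s ^ 2) :=
        Real.mul_rpow (by positivity) (by positivity)
      rw [← hC, e8]
      obtain ⟨u, hu⟩ : ∃ u, u = (Real.exp Real.eulerMascheroniConstant * Real.log (X T)) ^ (s ^ 2) := ⟨_, rfl⟩
      obtain ⟨v, hv⟩ : ∃ v, v = (2 * δ T) ^ (s ^ 2) := ⟨_, rfl⟩
      rw [← hu] at h7 ⊢
      rw [← hv]
      field_simp

end Pool.Agent.Results.MP_f9aece_nt.HybridSplitting
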