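import Mathlib
import Pool.Agent.X82.Recip

set_option autoImplicit false

/-!
MP_f9aece_nt, the orders `β = 2 / n`, `n = 2, 3, 4, ...` (the first moment is `n = 2`): explicit two-sided bounds with
constants that are absolute multiples of `A = a(1/n) / Γ(1 + 1/n²)`, and the whole profile of the moment at the distance
`λ / log T` from the critical line, up to an explicit error that decays exponentially in `λ`.
-/

open Filter Topology MeasureTheory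

namespace Pool.Agent.Results.MP_f9aece_nt.ReciprocalOrders

/-- The arithmetic factor `a κ = ∏_p (1 - 1/p)^(κ²) ∑_m (Γ(κ+m) / (Γ(κ) m!))² p^(-m)`. -/
noncomputable def aa (κ : ℝ) : ℝ :=
  ∏' p : Nat.Primes, ((1 - ((p : ℕ) : ℝ)⁻¹) ^ (κ ^ 2) *
    ∑' m : ℕ, (Real.Gamma (κ + m) / (Real.Gamma κ * (m.factorial : ℝ))) ^ 2 * ((p : ℕ) : ℝ)⁻¹ ^ m)

/-- `A n = a(1/n) / Γ(1/n² + 1)`. -/
noncomputable def A (n : ℕ) : ℝ := aa (1 / (n : ℝ)) / Real.Gamma ((1 / (n : ℝ)) ^ 2 + 1)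

lemma lc_gamma (κ : ℝ) (hκ : 0 < κ) (m : ℕ) :
    Pool.Agent.H306R2.lc κ m = Real.Gamma (κ + m) / (Real.Gamma κ * (m.factorial : ℝ)) := by
  have hG : Real.Gamma κ ≠ 0 := (Real.Gamma_pos_of_pos hκ).ne'
  unfold Pool.Agent.H306R2.lc
  induction m with
  | zero => simp [hG]
  | succ m ih =>
    rw [Finset.prod_range_succ, ih]
    have h1 : κ + ((m + 1 : ℕ) : ℝ) = (κ + m) + 1 := by push_cast; ring
    have h2 : κ + (m : ℝ) ≠ 0 := by positivity
    rw [h1, Real.Gamma_add_one h2, Nat.factorial_succ]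
    have h3 : (m.factorial : ℝ) ≠ 0 := by exact_mod_cast m.factorial_ne_zero
    have h4 : (m : ℝ) + 1 ≠ 0 := by positivity
    push_cast
    field_simp

lemma aF_eq (κ : ℝ) (hκ : 0 < κ) : Pool.Agent.H306R2.aF κ = aa κ := by
  unfold Pool.Agent.H306R2.aF aa
  refine tprod_congr fun p => ?_
  rw [one_div]
  congr 1
  refine tsum_congr fun m => ?_
  rw [lc_gamma κ hκ]

lemma Av_eq {n : ℕ} (hn : 2 ≤ n) : Pool.Agent.X82.Recip.Av n = A n := by
  have hn0 : (0:ℝ) < n := by exact_mod_cast (by omega : 0 < n)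
  unfold Pool.Agent.X82.Recip.Av A
  rw [aF_eq _ (by positivity)]

/-- the shift of the interval -/
lemma shift {n : ℕ} (hn : 2 ≤ n) (x : ℝ) {η : ℝ} (hη : 0 < η) : ∀ᶠ T : ℝ in atTop,
    |(∫ t in x..(T + x), Pool.Agent.W184.zn (1 / 2) t ^ (2 / (n:ℝ))) -
      ∫ t in (0:ℝ)..T, Pool.Agent.W184.zn (1 / 2) t ^ (2 / (n:ℝ))| ≤ η * Pool.Agent.W184.MM n T := by
  obtain ⟨-, -, h3, h4⟩ := Pool.Agent.W184.kv hn
  have hc := Pool.Agent.W184.zp_cont (σ := 1 / 2) (p := 2 / (n:ℝ)) (by norm_num) h3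
  filter_upwards [Pool.Agent.W184.CT_le (v := n) (by omega) (24 * (|x| * (2 + |x|))) hη, eventually_ge_atTop 1]
    with T hT hT1
  have e1 : (∫ t in x..(T + x), Pool.Agent.W184.zn (1 / 2) t ^ (2 / (n:ℝ))) -
      ∫ t in (0:ℝ)..T, Pool.Agent.W184.zn (1 / 2) t ^ (2 / (n:ℝ)) =
      (∫ t in T..(T + x), Pool.Agent.W184.zn (1 / 2) t ^ (2 / (n:ℝ))) -
        ∫ t in (0:ℝ)..x, Pool.Agent.W184.zn (1 / 2) t ^ (2 / (n:ℝ)) := by
    have a1 := intervalIntegral.integral_add_adjacent_intervals (hc.intervalIntegrable 0 x)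
      (hc.intervalIntegrable x (T + x)) (μ := volume)
    have a2 := intervalIntegral.integral_add_adjacent_intervals (hc.intervalIntegrable 0 T)
      (hc.intervalIntegrable T (T + x)) (μ := volume)
    linarith
  have hb : ∀ (a : ℝ), 0 ≤ a → a ≤ T → |∫ t in a..(a + x), Pool.Agent.W184.zn (1 / 2) t ^ (2 / (n:ℝ))| ≤
      12 * (1 + T + |x|) * |x| := by
    intro a ha haT
    have h5 := intervalIntegral.norm_integral_le_of_norm_le_const (a := a) (b := a + x)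
      (f := fun t => Pool.Agent.W184.zn (1 / 2) t ^ (2 / (n:ℝ))) (C := 12 * (1 + T + |x|)) (fun t ht => by
        rw [Real.norm_of_nonneg (Real.rpow_nonneg (Pool.Agent.W184.zn_nonneg _ _) _)]
        refine (Pool.Agent.W184.zp_le h3 h4 (by norm_num) (by norm_num)).trans ?_
        have h6 : |t| ≤ T + |x| := by
          rw [Set.uIoc, Set.mem_Ioc] at ht
          have h7 := neg_abs_le x
          have h8 := le_abs_self x
          rcases le_total 0 x with h9 | h9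
          · rw [min_eq_left (by linarith), max_eq_right (by linarith)] at ht
            rw [abs_of_nonneg h9] at *
            rw [abs_le]; constructor <;> linarith [ht.1, ht.2]
          · rw [min_eq_right (by linarith), max_eq_left (by linarith)] at ht
            rw [abs_le]; constructor <;> linarith [ht.1, ht.2]
        linarith)
    rw [show a + x - a = x by ring] at h5
    exact h5
  rw [e1]
  have b1 := hb T (by linarith) le_rfl
  have b2 := hb 0 le_rfl (by linarith)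
  rw [zero_add] at b2
  refine le_trans ?_ hT
  have b3 : |(∫ t in T..(T + x), Pool.Agent.W184.zn (1 / 2) t ^ (2 / (n:ℝ))) -
        ∫ t in (0:ℝ)..x, Pool.Agent.W184.zn (1 / 2) t ^ (2 / (n:ℝ))| ≤ 24 * (1 + T + |x|) * |x| := by
    have := abs_sub (∫ t in T..(T + x), Pool.Agent.W184.zn (1 / 2) t ^ (2 / (n:ℝ)))
      (∫ t in (0:ℝ)..x, Pool.Agent.W184.zn (1 / 2) t ^ (2 / (n:ℝ)))
    linarith
  refine b3.trans ?_
  have hx := abs_nonneg x
  have : 1 + T + |x| ≤ (2 + |x|) * T := by nlinarith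
  nlinarith [mul_le_mul_of_nonneg_right this hx]

/-- the average of the problem -/
lemma avg_eq (x : ℝ) {T : ℝ} (hT : 0 < T) (β : ℝ) :
    ∫ u in (0:ℝ)..1, ‖riemannZeta (1 / 2 + x * Complex.I + (u * T) * Complex.I)‖ ^ β =
      T⁻¹ * ∫ t in x..(T + x), Pool.Agent.W184.zn (1 / 2) t ^ β := by
  have h5 := intervalIntegral.integral_comp_mul_add (a := (0:ℝ)) (b := 1)
    (fun t => Pool.Agent.W184.zn (1 / 2) t ^ β) hT.ne' x
  rw [mul_zero, zero_add, mul_one, smul_eq_mul] at h5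
  rw [← h5]
  refine intervalIntegral.integral_congr fun u _ => ?_
  unfold Pool.Agent.W184.zn
  congr 3
  push_cast
  ring

lemma two_sided {n : ℕ} (hn : 2 ≤ n) {c C c' C' : ℝ} (hc : c' < c) (hC : C < C')
    (h1 : ∀ᶠ T : ℝ in atTop, c * A n * Pool.Agent.W184.MM n T ≤ ∫ t in (0:ℝ)..T, Pool.Agent.W184.zn (1 / 2) t ^ (2 / (n:ℝ)))
    (h2 : ∀ᶠ T : ℝ in atTop, ∫ t in (0:ℝ)..T, Pool.Agent.W184.zn (1 / 2) t ^ (2 / (n:ℝ)) ≤ C * A n * Pool.Agent.W184.MM n T)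
    (x : ℝ) : ∀ᶠ T : ℝ in atTop,
      c' * A n * Real.log T ^ ((2 / (n:ℝ)) ^ 2 / 4) ≤
          ∫ u in (0:ℝ)..1, ‖riemannZeta (1 / 2 + x * Complex.I + (u * T) * Complex.I)‖ ^ (2 / (n:ℝ)) ∧
        ∫ u in (0:ℝ)..1, ‖riemannZeta (1 / 2 + x * Complex.I + (u * T) * Complex.I)‖ ^ (2 / (n:ℝ)) ≤
          C' * A n * Real.log T ^ ((2 / (n:ℝ)) ^ 2 / 4) := by
  have hA : 0 < A n := by rw [← Av_eq hn]; exact Pool.Agent.X82.Recip.Av_pos hn
  have hn0 : (0:ℝ) < n := by exact_mod_cast (by omega : 0 < n)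
  set η := min (c - c') (C' - C) * A n with hη
  have hη0 : 0 < η := mul_pos (lt_min (by linarith) (by linarith)) hA
  have g1 : η ≤ (c - c') * A n := mul_le_mul_of_nonneg_right (min_le_left _ _) hA.le
  have g2 : η ≤ (C' - C) * A n := mul_le_mul_of_nonneg_right (min_le_right _ _) hA.le
  filter_upwards [h1, h2, shift hn x hη0, eventually_gt_atTop 1] with T k1 k2 k3 k4
  have hT0 : 0 < T := by linarith
  have hM := Pool.Agent.W184.MM_pos (v := n) k4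
  have hMe : Pool.Agent.W184.MM n T = T * Real.log T ^ ((2 / (n:ℝ)) ^ 2 / 4) := by
    unfold Pool.Agent.W184.MM
    congr 2
    ring
  rw [avg_eq x hT0]
  rw [abs_le] at k3
  constructor
  · rw [inv_mul_eq_div, le_div_iff₀ hT0]
    have : c' * A n * Pool.Agent.W184.MM n T ≤ ∫ t in x..(T + x), Pool.Agent.W184.zn (1 / 2) t ^ (2 / (n:ℝ)) := by
      nlinarith [mul_le_mul_of_nonneg_right g1 hM.le]
    refine le_trans (le_of_eq ?_) this
    rw [hMe]; ring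
  · rw [inv_mul_eq_div, div_le_iff₀ hT0]
    have : ∫ t in x..(T + x), Pool.Agent.W184.zn (1 / 2) t ^ (2 / (n:ℝ)) ≤ C' * A n * Pool.Agent.W184.MM n T := by
      nlinarith [mul_le_mul_of_nonneg_right g2 hM.le]
    refine this.trans (le_of_eq ?_)
    rw [hMe]; ring

lemma prof {n : ℕ} (hn : 2 ≤ n) {C C' : ℝ} (hCC : C + 1 < C')
    (h2 : ∀ᶠ T : ℝ in atTop, ∫ t in (0:ℝ)..T, Pool.Agent.W184.zn (1 / 2) t ^ (2 / (n:ℝ)) ≤ C * A n * Pool.Agent.W184.MM n T)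
    {lam : ℝ} (hl : 0 < lam) : ∀ᶠ T : ℝ in atTop,
      |(T⁻¹ * ∫ t in (0:ℝ)..T, ‖riemannZeta ((1 / 2 + lam / Real.log T : ℝ) + t * Complex.I)‖ ^ (2 / (n:ℝ))) /
          Real.log T ^ ((2 / (n:ℝ)) ^ 2 / 4) -
        A n * ∫ y in (0:ℝ)..1, (2 / (n:ℝ)) ^ 2 / 4 * y ^ ((2 / (n:ℝ)) ^ 2 / 4 - 1) * Real.exp (-(2 * lam * y))| ≤
      C' * A n * Real.exp (-(2 / (n:ℝ) * lam)) := by
  have e0 : (2 / (n:ℝ)) ^ 2 / 4 = (1 / (n:ℝ)) ^ 2 := by ring
  rw [← Av_eq hn] at h2 ⊢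
  filter_upwards [Pool.Agent.X82.Recip.profile hn hl hCC h2, eventually_gt_atTop 1] with T k1 k2
  have hM := Pool.Agent.W184.MM_pos (v := n) k2
  have hT0 : 0 < T := by linarith
  have hP : 0 < Real.log T ^ ((1 / (n:ℝ)) ^ 2) := Real.rpow_pos_of_pos (Real.log_pos k2) _
  rw [e0]
  have e1 : ∀ Z : ℝ, (T⁻¹ * Z) / Real.log T ^ ((1 / (n:ℝ)) ^ 2) = Z / Pool.Agent.W184.MM n T := by
    intro Z
    unfold Pool.Agent.W184.MM
    field_simp
  rw [e1]
  have e2 : ∫ t in (0:ℝ)..T, ‖riemannZeta ((1 / 2 + lam / Real.log T : ℝ) + t * Complex.I)‖ ^ (2 / (n:ℝ)) =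
      ∫ t in (0:ℝ)..T, Pool.Agent.W184.zn (1 / 2 + lam / Real.log T) t ^ (2 / (n:ℝ)) := rfl
  rw [e2]
  have e3 : (∫ y in (0:ℝ)..1, (1 / (n:ℝ)) ^ 2 * y ^ ((1 / (n:ℝ)) ^ 2 - 1) * Real.exp (-(2 * lam * y))) =
      Pool.Agent.W184.hI ((1 / (n:ℝ)) ^ 2) (2 * lam) := rfl
  rw [e3]
  have e4 : (∫ t in (0:ℝ)..T, Pool.Agent.W184.zn (1 / 2 + lam / Real.log T) t ^ (2 / (n:ℝ))) / Pool.Agent.W184.MM n T -
      Pool.Agent.X82.Recip.Av n * Pool.Agent.W184.hI ((1 / (n:ℝ)) ^ 2) (2 * lam) =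
      ((∫ t in (0:ℝ)..T, Pool.Agent.W184.zn (1 / 2 + lam / Real.log T) t ^ (2 / (n:ℝ))) -
        Pool.Agent.X82.Recip.Av n * Pool.Agent.W184.hI ((1 / (n:ℝ)) ^ 2) (2 * lam) * Pool.Agent.W184.MM n T) /
        Pool.Agent.W184.MM n T := by
    field_simp
  rw [e4, abs_div, abs_of_pos hM, div_le_iff₀ hM]
  exact k1

theorem result :
    -- all orders `2 / n` on the critical line
    (∀ n : ℕ, 2 ≤ n → 0 < A n ∧ ∀ x : ℝ, ∀ᶠ T : ℝ in atTop,
      1 / 2 * A n * Real.log T ^ ((2 / (n:ℝ)) ^ 2 / 4) ≤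
          ∫ u in (0:ℝ)..1, ‖riemannZeta (1 / 2 + x * Complex.I + (u * T) * Complex.I)‖ ^ (2 / (n:ℝ)) ∧
        ∫ u in (0:ℝ)..1, ‖riemannZeta (1 / 2 + x * Complex.I + (u * T) * Complex.I)‖ ^ (2 / (n:ℝ)) ≤
          97 / 20 * A n * Real.log T ^ ((2 / (n:ℝ)) ^ 2 / 4)) ∧
    -- the first moment
    (∀ x : ℝ, ∀ᶠ T : ℝ in atTop,
      51 / 100 * A 2 * Real.log T ^ (1 / 4 : ℝ) ≤
          ∫ u in (0:ℝ)..1, ‖riemannZeta (1 / 2 + x * Complex.I + (u * T) * Complex.I)‖ ∧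
        ∫ u in (0:ℝ)..1, ‖riemannZeta (1 / 2 + x * Complex.I + (u * T) * Complex.I)‖ ≤
          83 / 25 * A 2 * Real.log T ^ (1 / 4 : ℝ)) ∧
    -- the profile at the distance `λ / log T` from the critical line
    (∀ n : ℕ, 2 ≤ n → ∀ lam : ℝ, 0 < lam → ∀ᶠ T : ℝ in atTop,
      |(T⁻¹ * ∫ t in (0:ℝ)..T, ‖riemannZeta ((1 / 2 + lam / Real.log T : ℝ) + t * Complex.I)‖ ^ (2 / (n:ℝ))) /
          Real.log T ^ ((2 / (n:ℝ)) ^ 2 / 4) -
        A n * ∫ y in (0:ℝ)..1, (2 / (n:ℝ)) ^ 2 / 4 * y ^ ((2 / (n:ℝ)) ^ 2 / 4 - 1) * Real.exp (-(2 * lam * y))| ≤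
      6 * A n * Real.exp (-(2 / (n:ℝ) * lam))) := by
  have hup : ∀ n : ℕ, 2 ≤ n → ∀ᶠ T : ℝ in atTop,
      ∫ t in (0:ℝ)..T, Pool.Agent.W184.zn (1 / 2) t ^ (2 / (n:ℝ)) ≤ 121 / 25 * A n * Pool.Agent.W184.MM n T := by
    intro n hn
    rw [← Av_eq hn]
    exact Pool.Agent.X82.Recip.upper_all hn
  refine ⟨fun n hn => ⟨?_, fun x => ?_⟩, fun x => ?_, fun n hn lam hl => ?_⟩
  · rw [← Av_eq hn]; exact Pool.Agent.X82.Recip.Av_pos hn
  · refine two_sided hn (c := 501 / 1000) (C := 121 / 25) (by norm_num) (by norm_num) ?_ (hup n hn) x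
    rw [← Av_eq hn]
    exact Pool.Agent.X82.Recip.lower_all hn
  · have h := two_sided (n := 2) le_rfl (c := 64 / 125) (C := 663 / 200) (c' := 51 / 100) (C' := 83 / 25)
      (by norm_num) (by norm_num) (by
        rw [← Av_eq le_rfl]
        filter_upwards [Pool.Agent.W184.first_lower] with T hT
        refine le_trans (le_of_eq ?_) hT
        unfold Pool.Agent.X82.Recip.Av; ring) (by
        rw [← Av_eq le_rfl]
        filter_upwards [Pool.Agent.W184.first_upper] with T hT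
        refine hT.trans (le_of_eq ?_)
        unfold Pool.Agent.X82.Recip.Av; ring) x
    filter_upwards [h] with T hT
    have e1 : ((2:ℝ) / ((2:ℕ):ℝ)) ^ 2 / 4 = 1 / 4 := by norm_num
    have e2 : (2:ℝ) / ((2:ℕ):ℝ) = 1 := by norm_num
    rw [e1, e2] at hT
    simp only [Real.rpow_one] at hT
    exact hT
  · exact prof hn (C := 121 / 25) (by norm_num) (hup n hn) hl

end Pool.Agent.Results.MP_f9aece_nt.ReciprocalOrders
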