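import Mathlib
import Pool.Agent.X82.WClt
import Pool.Agent.Results.MP_f9aece_nt.TwoSidedNearTwo
import Pool.Agent.Results.MP_f9aece_nt.NearZero

set_option autoImplicit false

/-!
MP_f9aece_nt: where the moments of order `β → 2` (and `β → 0`) come from, unconditionally.

Let `β(T) → 2`, or `β(T) → 0` with `β(T) √(log log T) → ∞`. Under the weight `|ζ(1/2 + ix + iuT)|^β(T) du` on `[0, 1]`
the quantity `(log |ζ| - (β/2) log log T) / √(½ log log T)` is asymptotically standard normal, with convergence for all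
continuous test functions of exponential growth, and the total weight is asymptotic to `(log T)^(β²/4)`.
In particular the second moment, restricted to the `u` with
`log |ζ| ≤ log log T + y √(½ log log T)`, is asymptotic to `Φ(y) log T`.
-/

open MeasureTheory ProbabilityTheory Filter Topology Pool.Agent.X82.WClt

namespace Pool.Agent.Results.MP_f9aece_nt.WeightedCentralLimit

lemma small (s : ℝ) : Tendsto (fun T => s * Real.sqrt (2 / LL T)) atTop (𝓝 0) := by
  have h1 : Tendsto (fun T => 2 / LL T) atTop (𝓝 0) := LL_tendsto.const_div_atTop 2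
  have h2 := (Real.continuous_sqrt.tendsto 0).comp h1
  rw [Real.sqrt_zero] at h2
  have h3 := h2.const_mul s
  rw [mul_zero] at h3
  exact h3

lemma near_two (x : ℝ) (b : ℝ → ℝ) (hb : Tendsto b atTop (𝓝 2)) :
    Tendsto (fun T => Mo x T (b T) / EE T (b T)) atTop (𝓝 1) := by
  rw [Metric.tendsto_nhds]
  intro ε hε
  obtain ⟨δ, hδ, h⟩ := Pool.Agent.Results.MP_f9aece_nt.TwoSidedNearTwo.result (ε / 2) (half_pos hε)
  filter_upwards [h x, (Metric.tendsto_nhds.mp hb) δ hδ] with T h1 h2
  rw [Real.dist_eq] at h2 ⊢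
  exact (h1 (b T) h2.le).trans_lt (half_lt_self hε)

lemma gauss_int (φ : ℝ → ℝ) : ∫ y, φ y ∂(gaussianReal 0 1) =
    (Real.sqrt (2 * Real.pi))⁻¹ * ∫ y, φ y * Real.exp (-y ^ 2 / 2) := by
  rw [integral_gaussianReal_eq_integral_smul (by norm_num), ← integral_const_mul]
  refine integral_congr_ae (Eventually.of_forall fun y => ?_)
  simp only [gaussianPDFReal, smul_eq_mul, NNReal.coe_one, mul_one, sub_zero]
  ring

lemma gauss_Iic (y : ℝ) : (gaussianReal 0 1).real (Set.Iic y) =
    (Real.sqrt (2 * Real.pi))⁻¹ * ∫ z in Set.Iic y, Real.exp (-z ^ 2 / 2) := by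
  have h5 : (gaussianReal 0 1).real (Set.Iic y) =
      ∫ z, (Set.Iic y).indicator (fun _ => (1:ℝ)) z ∂(gaussianReal 0 1) := by
    rw [integral_indicator_const _ measurableSet_Iic, smul_eq_mul, mul_one]
  rw [h5, gauss_int, ← integral_indicator measurableSet_Iic]
  congr 1
  refine integral_congr_ae (Eventually.of_forall fun z => ?_)
  by_cases hz : z ∈ Set.Iic y
  · simp only [Set.indicator_of_mem hz, one_mul]
  · simp only [Set.indicator_of_notMem hz, zero_mul]

theorem result (x : ℝ) (β : ℝ → ℝ)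
    (hβ : Tendsto β atTop (𝓝 2) ∨
      (Tendsto β atTop (𝓝 0) ∧ Tendsto (fun T => β T * Real.sqrt (Real.log (Real.log T))) atTop atTop)) :
    (∀ φ : ℝ → ℝ, Continuous φ → (∃ C : ℝ, ∀ y : ℝ, |φ y| ≤ C * Real.exp (C * |y|)) →
      Tendsto (fun T : ℝ =>
        (∫ u in (0:ℝ)..1, ‖riemannZeta (1 / 2 + x * Complex.I + (u * T) * Complex.I)‖ ^ β T *
          φ ((Real.log ‖riemannZeta (1 / 2 + x * Complex.I + (u * T) * Complex.I)‖ -
            β T / 2 * Real.log (Real.log T)) / Real.sqrt (Real.log (Real.log T) / 2))) /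
          Real.exp (β T ^ 2 / 4 * Real.log (Real.log T))) atTop
        (𝓝 ((Real.sqrt (2 * Real.pi))⁻¹ * ∫ y, φ y * Real.exp (-y ^ 2 / 2)))) ∧
    (∀ y : ℝ, Tendsto (fun T : ℝ =>
        (∫ u in {u ∈ Set.Ioc (0:ℝ) 1 | Real.log ‖riemannZeta (1 / 2 + x * Complex.I + (u * T) * Complex.I)‖ ≤
            β T / 2 * Real.log (Real.log T) + y * Real.sqrt (Real.log (Real.log T) / 2)},
          ‖riemannZeta (1 / 2 + x * Complex.I + (u * T) * Complex.I)‖ ^ β T) /
          Real.exp (β T ^ 2 / 4 * Real.log (Real.log T))) atTop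
        (𝓝 ((Real.sqrt (2 * Real.pi))⁻¹ * ∫ z in Set.Iic y, Real.exp (-z ^ 2 / 2)))) := by
  have key : (∀ s : ℝ, ∀ᶠ T in atTop, 0 < β T + s * Real.sqrt (2 / LL T)) ∧
      ∀ s : ℝ, Tendsto (fun T => Mo x T (β T + s * Real.sqrt (2 / LL T)) / EE T (β T + s * Real.sqrt (2 / LL T)))
        atTop (𝓝 1) := by
    rcases hβ with h2 | ⟨h0, hinf⟩
    · have h3 : ∀ s : ℝ, Tendsto (fun T => β T + s * Real.sqrt (2 / LL T)) atTop (𝓝 2) := fun s => by
        have := h2.add (small s)
        rwa [add_zero] at this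
      exact ⟨fun s => (h3 s).eventually (lt_mem_nhds (by norm_num)), fun s => near_two x _ (h3 s)⟩
    · have h3 : ∀ s : ℝ, Tendsto (fun T => β T + s * Real.sqrt (2 / LL T)) atTop (𝓝 0) := fun s => by
        have := h0.add (small s)
        rwa [add_zero] at this
      have h4 : ∀ s : ℝ, ∀ᶠ T in atTop, 0 < β T + s * Real.sqrt (2 / LL T) := fun s => by
        filter_upwards [hinf.eventually_gt_atTop (|s| * Real.sqrt 2), LL_tendsto.eventually_gt_atTop 0] with T g1 g2
        have e1 : Real.sqrt (2 / LL T) = Real.sqrt 2 / Real.sqrt (LL T) := Real.sqrt_div (by norm_num) _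
        have e2 : 0 < Real.sqrt (LL T) := Real.sqrt_pos.mpr g2
        have e3 : |s| * Real.sqrt 2 / Real.sqrt (LL T) < β T := by
          rw [div_lt_iff₀ e2]; exact g1
        rw [e1]
        have e4 : -(|s| * Real.sqrt 2 / Real.sqrt (LL T)) ≤ s * (Real.sqrt 2 / Real.sqrt (LL T)) := by
          rw [mul_div_assoc, ← neg_mul]
          exact mul_le_mul_of_nonneg_right (neg_abs_le s) (by positivity)
        linarith
      exact ⟨h4, fun s => Pool.Agent.Results.MP_f9aece_nt.NearZero.result.2 x _ (h4 s) (h3 s)⟩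
  obtain ⟨hA, hB⟩ := wclt x β key.1 key.2
  constructor
  · intro φ hφ hC
    rw [← gauss_int]
    exact hA φ hφ hC
  · intro y
    rw [← gauss_Iic]
    refine (hB y).congr' ?_
    filter_upwards [LL_tendsto.eventually_gt_atTop 0] with T hT
    have h0 : 0 < Real.sqrt (LL T / 2) := Real.sqrt_pos.mpr (by positivity)
    have e1 : {u ∈ Set.Ioc (0:ℝ) 1 | XX x T (β T) u ≤ y} =
        {u ∈ Set.Ioc (0:ℝ) 1 | Real.log ‖riemannZeta (1 / 2 + x * Complex.I + (u * T) * Complex.I)‖ ≤
            β T / 2 * Real.log (Real.log T) + y * Real.sqrt (Real.log (Real.log T) / 2)} := by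
      ext u
      simp only [Set.mem_ofPred_eq]
      refine and_congr_right fun _ => ?_
      unfold XX
      rw [div_le_iff₀ h0, sub_le_iff_le_add, add_comm]
      rfl
    rw [e1]
    rfl

end Pool.Agent.Results.MP_f9aece_nt.WeightedCentralLimit
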